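import Pool.Agent.H63.Avo3

set_option autoImplicit false
open Filter Topology

namespace Pool.Agent.Results.MP_6eef91_an.EqualEntropy

abbrev Z3 := ℤ × ℤ × ℤ

def emb (v : Z3) : ℝ × ℝ × ℝ := (v.1, v.2.1, v.2.2)

/-- lattice-convex subsets of the cubic lattice -/
def Cvx (C : Set Z3) : Prop := C = {v | emb v ∈ convexHull ℝ (emb '' C)}

/-- the symbols at `v` that extend the restriction of `x` to `S` to a globally valid pattern -/
def Fol {A : Type} (X : Set (Z3 → A)) (x : Z3 → A) (S : Set Z3) (v : Z3) : Set A :=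
  {a | ∃ y ∈ X, (∀ u ∈ S, y u = x u) ∧ y v = a}

def Avo {A : Type} (X : Set (Z3 → A)) : Prop :=
  ∀ (C : Set Z3) (v : Z3), Cvx C → v ∉ C → Cvx (insert v C) →
    ∃ D : Set Z3, D.Finite ∧ D ⊆ C ∧ ∀ x ∈ X, Fol X x C v = Fol X x D v

def sh {A : Type} (u : Z3) (x : Z3 → A) : Z3 → A := fun v => x (v - u)

/-- the cube with side `L` at the origin -/
noncomputable def cube (L : ℕ) : Finset Z3 :=
  Finset.Ico (0 : ℤ) L ×ˢ Finset.Ico (0 : ℤ) L ×ˢ Finset.Ico (0 : ℤ) L

/-- the number of globally valid patterns on the cube -/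
noncomputable def cnt {A : Type} (X : Set (Z3 → A)) (L : ℕ) : ℕ :=
  ((fun (x : Z3 → A) (v : cube L) => x v) '' X).ncard

open Pool.Agent.H63.Avo in
theorem result : ∃ (A : Type) (_ : Fintype A) (_ : TopologicalSpace A) (_ : DiscreteTopology A)
    (X : Set (Z3 → A)) (n : ℕ), 1 ≤ n ∧ IsClosed X ∧ (∀ u, ∀ x ∈ X, sh u x ∈ X) ∧ Avo X ∧
      Tendsto (fun L : ℕ => Real.log (cnt X L) / (L : ℝ) ^ 3) atTop (𝓝 (Real.log n)) ∧
      ¬ ∃ π : X → (Z3 → Fin n), Continuous π ∧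
        (∀ (u : Z3) (x y : X), y.1 = sh u x.1 → π y = sh u (π x)) ∧ Function.Surjective π := by
  refine ⟨Al, inferInstance, inferInstance, inferInstance, XX, 2 ^ 35, by norm_num, XX_closed,
    fun u x hx => XX_shift u hx, fun C v _ hv _ => ?_, ?_, ?_⟩
  · obtain ⟨D, h1, h2, h3⟩ := XX_avo C v hv
    refine ⟨D, h1, h2, fun x hx => Set.Subset.antisymm ?_ ?_⟩
    · rintro a ⟨y, hy, e, rfl⟩
      exact ⟨y, hy, fun u hu => e u (h2 hu), rfl⟩
    · rintro a ⟨y, hy, e, rfl⟩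
      exact h3 x hx y hy e
  · have : cube = Bx 0 := funext fun L => by simp [cube, Bx]
    unfold cnt
    rw [this]
    exact entropy
  · rintro ⟨π, h1, h2, h3⟩
    exact no_factor π h1 (fun u x y e v => congrFun (h2 u x y (funext e)) v) h3

end Pool.Agent.Results.MP_6eef91_an.EqualEntropy
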